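import Pool.Agent.V11230.VLine2

/-!
# Scheduling a single vehicle on a line with release and handling times is NP-hard

The reduction is from subset sum, `a_1, …, a_n` and `T`.  Let `M = 3 ∑ a_i + 2 T + 2`.  On the line
are, from left to right, the start vertex, pairs of vertices `A_i`, `B_i` at distance `a_i` for
`i = 1, …, n`, and the last vertex `F`; the other distances are `M`.  The job at `A_i` has the
handling time `2 a_i` and is released at the time `2 i M`, the job at `B_i` has the handling time `M`
and is released at time `0`.  On its way to `F` the vehicle reaches `A_i` too early; but it can
process `B_i`, go back to `A_i` and process this job before `F`, at the cost of `2 a_i` additional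
units of travel time.  The job at `F` is released so late that jobs `A_i` with `∑ a_i ≥ T` must be
processed before, and the bound `K` allows additional travel and idle time `2 T` only.
-/

namespace Pool.Agent.Results.MP_6e49ee_lc.LineHandlingNPHard

open Pool.Agent.NPC Pool.Agent.NPC.V11230.VL

/-- **The single-vehicle scheduling problem on a path with positive handling times is NP-hard.** -/
theorem result : NPHardP VSP := hard.toNPHardP

end Pool.Agent.Results.MP_6e49ee_lc.LineHandlingNPHard
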